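import Pool.Agent.helper9.HX.Spec

/-!
# Project hx (MP_d9e35a_co), row EQS: the two step equation at a singleton
-/

set_option autoImplicit false
set_option linter.unusedVariables false

open scoped Classical

namespace Pool.Agent.helper9.HX

open Finset
open Pool.Agent.helper65.HC (V IsEig IsTop lam)
open Pool.Agent.helper9.HQ (Fam Dn E N Le hi c)
open Pool.Agent.helper9

/-- each 3-set which contains `j` arises from at most two pairs `(k, q)` -/
theorem EQS_fib {d : ℕ} (j : Fin d) (y : Finset (Fin d)) (hy : y.card = 3) (hj : j ∈ y) :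
    ((({j}ᶜ : Finset (Fin d)).sigma (fun k => ({k, j}ᶜ : Finset (Fin d)))).filter
      (fun p => insert p.2 {p.1, j} = y)).card ≤ 2 := by
  have h2 : (y.erase j).card = 2 := by rw [card_erase_of_mem hj, hy]
  rw [← h2]
  apply card_le_card_of_injOn (fun p => p.1)
  · intro p hp
    have hp' := mem_filter.1 (mem_coe.1 hp)
    have hs := mem_sigma.1 hp'.1
    have h1 : p.1 ≠ j := by simpa using hs.1
    have h3 := hp'.2
    refine mem_coe.2 (mem_erase.2 ⟨h1, ?_⟩)
    rw [← h3]
    simp
  · intro p hp p' hp' h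
    have hq := mem_filter.1 (mem_coe.1 hp)
    have hq' := mem_filter.1 (mem_coe.1 hp')
    have hs := (mem_sigma.1 hq.1).2
    have hs' := (mem_sigma.1 hq'.1).2
    obtain ⟨k, q⟩ := p
    obtain ⟨k', q'⟩ := p'
    have h' : k = k' := h
    subst h'
    have e1 : insert q ({k, j} : Finset (Fin d)) = y := hq.2
    have e2 : insert q' ({k, j} : Finset (Fin d)) = y := hq'.2
    have n1 : q ∉ ({k, j} : Finset (Fin d)) := mem_compl.1 hs
    have n2 : q' ∉ ({k, j} : Finset (Fin d)) := mem_compl.1 hs'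
    have m1 : q ∈ insert q' ({k, j} : Finset (Fin d)) := by
      rw [e2, ← e1]
      exact mem_insert_self _ _
    have m2 : q = q' := by
      rcases mem_insert.1 m1 with h | h
      · exact h
      · exact absurd h n1
    rw [m2]

/-- the double sum -/
theorem EQS_dbl {d : ℕ} (U : Fam d) (l : ℝ) (f : Finset (Fin d) → ℝ) (j : Fin d) (hf : Pf U l f) :
    ∑ k ∈ ({j}ᶜ : Finset (Fin d)), ∑ q ∈ ({k, j}ᶜ : Finset (Fin d)), f (insert q {k, j}) ≤
      2 * ∑ y ∈ thr j U, f y := by
  rw [sum_sigma' ({j}ᶜ : Finset (Fin d)) (fun k => ({k, j}ᶜ : Finset (Fin d)))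
    (fun k q => f (insert q {k, j}))]
  have hmaps : ∀ p ∈ (({j}ᶜ : Finset (Fin d)).sigma (fun k => ({k, j}ᶜ : Finset (Fin d)))),
      (insert p.2 {p.1, j} : Finset (Fin d)) ∈ (univ : Fam d).filter (fun y => y.card = 3 ∧ j ∈ y) := by
    intro p hp
    have hs := mem_sigma.1 hp
    have h1 : p.1 ≠ j := by simpa using hs.1
    have h2 : p.2 ∉ ({p.1, j} : Finset (Fin d)) := mem_compl.1 hs.2
    refine mem_filter.2 ⟨mem_univ _, ?_, by simp⟩
    rw [card_insert_of_notMem h2, card_pair h1]
  rw [← sum_fiberwise_of_maps_to hmaps]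
  have hsub : thr j U ⊆ (univ : Fam d).filter (fun y => y.card = 3 ∧ j ∈ y) := by
    intro y hy
    have := mem_filter.1 hy
    exact mem_filter.2 ⟨mem_univ _, this.2⟩
  rw [mul_sum]
  have hz : ∑ y ∈ thr j U, 2 * f y = ∑ y ∈ (univ : Fam d).filter (fun y => y.card = 3 ∧ j ∈ y), 2 * f y := by
    apply sum_subset hsub
    intro y hy hy'
    have h1 : y ∉ U := by
      intro hU
      exact hy' (mem_filter.2 ⟨hU, (mem_filter.1 hy).2⟩)
    rw [hf.out y h1, mul_zero]
  rw [hz]
  apply sum_le_sum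
  intro y hy
  have hy' := (mem_filter.1 hy).2
  have hc := EQS_fib j y hy'.1 hy'.2
  have h1 : ∑ p ∈ (({j}ᶜ : Finset (Fin d)).sigma (fun k => ({k, j}ᶜ : Finset (Fin d)))).filter
      (fun p => insert p.2 {p.1, j} = y), f (insert p.2 {p.1, j}) =
      ∑ p ∈ (({j}ᶜ : Finset (Fin d)).sigma (fun k => ({k, j}ᶜ : Finset (Fin d)))).filter
      (fun p => insert p.2 {p.1, j} = y), f y := by
    apply sum_congr rfl
    intro p hp
    rw [(mem_filter.1 hp).2]
  rw [h1, sum_const, nsmul_eq_mul]
  have h2 : (((({j}ᶜ : Finset (Fin d)).sigma (fun k => ({k, j}ᶜ : Finset (Fin d)))).filter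
      (fun p => insert p.2 {p.1, j} = y)).card : ℝ) ≤ 2 := by exact_mod_cast hc
  exact mul_le_mul_of_nonneg_right h2 (hf.nn y)

/-- the number of pairs -/
theorem EQS_card {d : ℕ} (U : Fam d) (j : Fin d) :
    (({j}ᶜ : Finset (Fin d)).filter (fun k => ({k, j} : Finset (Fin d)) ∈ U)).card ≤ dg j U := by
  apply card_le_card_of_injOn (fun k => ({k, j} : Finset (Fin d)))
  · intro k hk
    have h := mem_filter.1 (mem_coe.1 hk)
    have h1 : k ≠ j := by simpa using h.1
    exact mem_coe.2 (mem_filter.2 ⟨h.2, card_pair h1, by simp⟩)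
  · intro k hk k' hk' h
    have h1 := mem_filter.1 (mem_coe.1 hk)
    have h2 := mem_filter.1 (mem_coe.1 hk')
    have n1 : k ≠ j := by simpa using h1.1
    have h' : ({k, j} : Finset (Fin d)) = {k', j} := h
    have m : k ∈ ({k', j} : Finset (Fin d)) := by
      rw [← h']
      simp
    rcases mem_insert.1 m with h | h
    · exact h
    · exact absurd (mem_singleton.1 h) n1

theorem EQS : EQS_stmt := by
  intro d U l f j hf hl
  have hthr : 0 ≤ ∑ y ∈ thr j U, f y := sum_nonneg fun y _ => hf.nn y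
  by_cases hj : ({j} : Finset (Fin d)) ∈ U
  swap
  · rw [hf.out _ hj, mul_zero]
    positivity
  have h0 : ∑ k, f {k} = l := by
    have h := hf.eq ∅ hf.em
    rw [hf.one, mul_one, sum_empty, zero_add] at h
    rw [h, compl_empty]
    apply sum_congr rfl
    intro k _
    rfl
  have hs : l * f {j} = 1 + ∑ k ∈ ({j}ᶜ : Finset (Fin d)), f {k, j} := by
    have h := hf.eq {j} hj
    rw [h, sum_singleton]
    have e : ({j} : Finset (Fin d)).erase j = ∅ := by simp
    rw [e, hf.one]
  have hk : ∀ k ∈ ({j}ᶜ : Finset (Fin d)), l * f {k, j} ≤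
      (if ({k, j} : Finset (Fin d)) ∈ U then f {j} + f {k} else 0) +
        ∑ q ∈ ({k, j}ᶜ : Finset (Fin d)), f (insert q {k, j}) := by
    intro k hk
    have h1 : k ≠ j := by simpa using hk
    have hn : 0 ≤ ∑ q ∈ ({k, j}ᶜ : Finset (Fin d)), f (insert q {k, j}) := sum_nonneg fun q _ => hf.nn _
    by_cases hU : ({k, j} : Finset (Fin d)) ∈ U
    · rw [if_pos hU, hf.eq _ hU, sum_pair h1]
      have e1 : ({k, j} : Finset (Fin d)).erase k = {j} := by
        rw [erase_insert]
        simpa using h1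
      have e2 : ({k, j} : Finset (Fin d)).erase j = {k} := by
        rw [Finset.pair_comm, erase_insert]
        simpa using h1.symm
      rw [e1, e2]
    · rw [if_neg hU, hf.out _ hU, mul_zero, zero_add]
      exact hn
  have hsum := sum_le_sum hk
  rw [sum_add_distrib, ← mul_sum] at hsum
  have hd := EQS_dbl U l f j hf
  have hif : ∑ k ∈ ({j}ᶜ : Finset (Fin d)), (if ({k, j} : Finset (Fin d)) ∈ U then f {j} + f {k} else 0) ≤
      dg j U * f {j} + l := by
    rw [← sum_filter, sum_add_distrib, sum_const, nsmul_eq_mul]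
    have c1 : ((({j}ᶜ : Finset (Fin d)).filter (fun k => ({k, j} : Finset (Fin d)) ∈ U)).card : ℝ) ≤ dg j U := by
      exact_mod_cast EQS_card U j
    have c2 : ∑ k ∈ ({j}ᶜ : Finset (Fin d)).filter (fun k => ({k, j} : Finset (Fin d)) ∈ U), f {k} ≤ l := by
      rw [← h0]
      exact sum_le_sum_of_subset_of_nonneg (subset_univ _) fun k _ _ => hf.nn _
    have c3 := mul_le_mul_of_nonneg_right c1 (hf.nn {j})
    linarith
  have e3 : l ^ 2 * f {j} = l + l * ∑ k ∈ ({j}ᶜ : Finset (Fin d)), f {k, j} := by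
    have : l ^ 2 * f {j} = l * (l * f {j}) := by ring
    rw [this, hs]
    ring
  have : (l ^ 2 - dg j U) * f {j} = l ^ 2 * f {j} - dg j U * f {j} := by ring
  rw [this, e3]
  linarith

end Pool.Agent.helper9.HX
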